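import Mathlib

open Filter Topology MeasureTheory

namespace Pool.Agent.H.MP_ad5f6c_nt

structure Lev (θ₁ θ₂ c : ℝ) (b G : ℤ) : Prop where
  hb : 1024 ≤ b
  ex : ∃ d p i : ℤ, ∃ τ₁ τ₂ τ₃ : ℝ, θ₁ = d / b + τ₁ ∧ θ₂ = p / b ^ 6 + τ₂ ∧
    c = (i + 1 / 2) / b ^ 6 + τ₃ ∧ 1 / (b : ℝ) ^ 12 ≤ τ₁ ∧ τ₁ ≤ 2 / (b : ℝ) ^ 12 ∧
    0 ≤ τ₂ ∧ τ₂ ≤ 2 / (b : ℝ) ^ 60 ∧ 0 ≤ τ₃ ∧ τ₃ ≤ 2 / (b : ℝ) ^ 60 ∧
    IsCoprime b p ∧ b ∣ p - d ∧ b ∣ i - G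

theorem drift {B q τ₂ τ₃ : ℝ} (hB : 1024 ≤ B) (hq : |q| ≤ B ^ 48) (h2 : 0 ≤ τ₂)
    (h2' : τ₂ ≤ 2 / B ^ 60) (h3 : 0 ≤ τ₃) (h3' : τ₃ ≤ 2 / B ^ 60) :
    |q * τ₂ - τ₃| ≤ 1 / (4 * B ^ 6) := by
  have hB0 : 0 < B := by linarith
  have h1 : (1 : ℝ) ≤ B ^ 48 := one_le_pow₀ (by linarith)
  have h6 : (16 : ℝ) ≤ B ^ 6 := by
    calc (16 : ℝ) ≤ B ^ 1 := by linarith
      _ ≤ B ^ 6 := pow_le_pow_right₀ (by linarith) (by norm_num)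
  calc |q * τ₂ - τ₃| ≤ |q * τ₂| + |τ₃| := abs_sub _ _
    _ = |q| * τ₂ + τ₃ := by rw [abs_mul, abs_of_nonneg h2, abs_of_nonneg h3]
    _ ≤ B ^ 48 * (2 / B ^ 60) + B ^ 48 * (2 / B ^ 60) := by
        have : 2 / B ^ 60 ≤ B ^ 48 * (2 / B ^ 60) := le_mul_of_one_le_left (by positivity) h1
        have : |q| * τ₂ ≤ B ^ 48 * (2 / B ^ 60) := mul_le_mul hq h2' h2 (by positivity)
        linarith
    _ = 4 / B ^ 12 := by field_simp; norm_num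
    _ ≤ 1 / (4 * B ^ 6) := by
        rw [div_le_div_iff₀ (by positivity) (by positivity)]
        have : B ^ 12 = B ^ 6 * B ^ 6 := by ring
        rw [this]
        nlinarith [pow_pos hB0 6]

theorem half_le (l : ℤ) : 1 / 2 ≤ |(l : ℝ) - 1 / 2| := by
  rcases le_or_gt l 0 with h | h
  · have : (l : ℝ) ≤ 0 := by exact_mod_cast h
    rw [abs_of_nonpos (by linarith)]; linarith
  · have : (1 : ℝ) ≤ l := by exact_mod_cast h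
    rw [abs_of_nonneg (by linarith)]; linarith

theorem far {θ₁ θ₂ c : ℝ} {b G : ℤ} (H : Lev θ₁ θ₂ c b G) (q s t : ℤ) (x w : ℝ)
    (hq1 : (b : ℝ) ^ 4 ≤ |(q : ℝ)|) (hq2 : |(q : ℝ)| ≤ (b : ℝ) ^ 48) (hw : 0 ≤ w)
    (hwq : w ^ 2 * |(q : ℝ)| ≤ 1 / 400) (h1 : |q * θ₁ - x - s| ≤ w) (h2 : |q * θ₂ - c - t| ≤ w) :
    (∃ u : ℤ, |x - G / b - u| ≤ 0.26) ∨ ∃ u : ℤ, |b * x - u| < 6 / b := by
  obtain ⟨hb, d, p, i, τ₁, τ₂, τ₃, e1, e2, e3, a1, a2, a3, a4, a5, a6, -, ⟨m1, hm1⟩,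
    ⟨m2, hm2⟩⟩ := H
  have hB : (1024 : ℝ) ≤ b := by exact_mod_cast hb
  have hm1' : (p : ℝ) - d = b * m1 := by exact_mod_cast hm1
  have hm2' : (i : ℝ) - G = b * m2 := by exact_mod_cast hm2
  have hB0 : (0 : ℝ) < b := by linarith
  have hd := drift hB hq2 a3 a4 a5 a6
  obtain ⟨l, hl⟩ : ∃ l : ℤ, l = q * p - i - t * b ^ 6 := ⟨_, rfl⟩
  have hl' : (l : ℝ) = q * p - i - t * b ^ 6 := by rw [hl]; push_cast; ring
  have hL := half_le l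
  have hB6 : (0 : ℝ) < b ^ 6 := by positivity
  have k1 : (q : ℝ) * θ₂ - c - t = (l - 1 / 2) / b ^ 6 + (q * τ₂ - τ₃) := by
    rw [e2, e3, hl']; field_simp; ring
  have k2 : |(l : ℝ) - 1 / 2| / b ^ 6 ≤ w + 1 / (4 * b ^ 6) := by
    have : ((l : ℝ) - 1 / 2) / b ^ 6 = (q * θ₂ - c - t) - (q * τ₂ - τ₃) := by rw [k1]; ring
    have h3 : |((l : ℝ) - 1 / 2) / b ^ 6| ≤ w + 1 / (4 * b ^ 6) := by
      rw [this]; exact (abs_sub _ _).trans (by linarith)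
    rwa [abs_div, abs_of_pos hB6] at h3
  have k3 : |(l : ℝ) - 1 / 2| ≤ 2 * w * b ^ 6 := by
    rw [div_le_iff₀ hB6] at k2
    have : (w + 1 / (4 * b ^ 6)) * (b : ℝ) ^ 6 = w * b ^ 6 + 1 / 4 := by field_simp
    rw [this] at k2
    linarith
  obtain ⟨L, hLL⟩ : ∃ L, L = |(l : ℝ) - 1 / 2| := ⟨_, rfl⟩
  rw [← hLL] at hL k3
  have hq0 : (0 : ℝ) ≤ |(q : ℝ)| := abs_nonneg _
  have hτ0 : 0 ≤ τ₁ := le_trans (by positivity) a1
  have k4 : |(q : ℝ)| * τ₁ * L ^ 2 ≤ 1 / 50 := by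
    have c1 : L ^ 2 ≤ (2 * w * b ^ 6) ^ 2 := pow_le_pow_left₀ (by linarith) k3 2
    calc |(q : ℝ)| * τ₁ * L ^ 2 ≤ |(q : ℝ)| * (2 / b ^ 12) * (2 * w * b ^ 6) ^ 2 := by gcongr
      _ = 8 * (w ^ 2 * |(q : ℝ)|) := by field_simp; ring
      _ ≤ 1 / 50 := by linarith
  have k5 : w * b ^ 2 ≤ 1 / 20 := by
    have : (w * b ^ 2) ^ 2 ≤ (1 / 20) ^ 2 := by
      calc (w * b ^ 2) ^ 2 = w ^ 2 * b ^ 4 := by ring
        _ ≤ w ^ 2 * |(q : ℝ)| := by gcongr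
        _ ≤ (1 / 20) ^ 2 := by linarith
    exact (pow_le_pow_iff_left₀ (by positivity) (by norm_num) two_ne_zero).1 this
  obtain ⟨u, hu⟩ : ∃ u : ℤ, u = s - (m2 + t * b ^ 5 - q * m1) := ⟨_, rfl⟩
  have hu' : (u : ℝ) = s - (m2 + t * b ^ 5 - q * m1) := by rw [hu]; push_cast; ring
  have k6 : x - G / b + u = l / b + q * τ₁ - (q * θ₁ - x - s) := by
    have hd' : (d : ℝ) = p - b * m1 := by linarith
    have hG : (G : ℝ) = i - b * m2 := by linarith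
    rw [e1, hl', hu', hd', hG]; field_simp; ring
  have hy : |(q : ℝ) * τ₁ - (q * θ₁ - x - s)| ≤ |(q : ℝ)| * τ₁ + w := by
    refine (abs_sub _ _).trans ?_
    rw [abs_mul, abs_of_nonneg hτ0]; linarith
  have hqt : 0 ≤ |(q : ℝ)| * τ₁ := by positivity
  have hb2 : (1 : ℝ) ≤ b ^ 2 := one_le_pow₀ (by linarith)
  rcases le_or_gt |(l : ℝ)| (b / 8) with hc | hc
  · left
    refine ⟨-u, ?_⟩
    have e : x - G / b - ((-u : ℤ) : ℝ) = l / b + (q * τ₁ - (q * θ₁ - x - s)) := by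
      push_cast; linarith
    rw [e]
    have c1 : |(l : ℝ) / b| ≤ 1 / 8 := by
      rw [abs_div, abs_of_pos hB0, div_le_iff₀ hB0]; linarith
    have c2 : |(q : ℝ)| * τ₁ ≤ 4 / 50 := by
      have : (1 : ℝ) / 4 ≤ L ^ 2 := by nlinarith
      nlinarith
    have c3 : w ≤ 1 / 20 := by nlinarith
    exact (abs_add_le _ _).trans (by linarith)
  · right
    refine ⟨l + G - b * u, ?_⟩
    have e : (b : ℝ) * x - ((l + G - b * u : ℤ) : ℝ) = b * (q * τ₁ - (q * θ₁ - x - s)) := by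
      have : (q : ℝ) * τ₁ - (q * θ₁ - x - s) = x - G / b + u - l / b := by linarith
      rw [this]; push_cast; field_simp; ring
    rw [e, abs_mul, abs_of_pos hB0, lt_div_iff₀ hB0]
    have c1 : (b : ℝ) / 16 ≤ L := by
      have : |(l : ℝ)| ≤ L + 1 / 2 := by
        have e2 : (l : ℝ) = (l - 1 / 2) + 1 / 2 := by ring
        have := abs_add_le ((l : ℝ) - 1 / 2) (1 / 2)
        rw [← e2, ← hLL, abs_of_pos (by norm_num : (0 : ℝ) < 1 / 2)] at this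
        exact this
      linarith
    have c2 : (b : ℝ) ^ 2 / 256 ≤ L ^ 2 := by
      have := pow_le_pow_left₀ (by positivity) c1 2
      calc (b : ℝ) ^ 2 / 256 = (b / 16) ^ 2 := by ring
        _ ≤ L ^ 2 := this
    have c3 : |(q : ℝ)| * τ₁ * b ^ 2 ≤ 256 / 50 := by
      have := mul_le_mul_of_nonneg_left c2 hqt
      linarith
    calc (b : ℝ) * |(q : ℝ) * τ₁ - (q * θ₁ - x - s)| * b
        = |(q : ℝ) * τ₁ - (q * θ₁ - x - s)| * b ^ 2 := by ring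
      _ ≤ (|(q : ℝ)| * τ₁ + w) * b ^ 2 := by gcongr
      _ < 6 := by linarith

theorem near {θ₁ θ₂ c : ℝ} {b G : ℤ} (H : Lev θ₁ θ₂ c b G) (x η : ℝ)
    (h0 : 0 ≤ x - G / b) (h1 : x - G / b ≤ η) (hη : η ≤ 1) (hbη : 4 / (b : ℝ) ≤ η) :
    ∃ q s t : ℤ, b ≤ q ∧ (q : ℝ) * (q * θ₁ - x - s) ^ 2 ≤ 32 * η ∧
      (q : ℝ) * (q * θ₂ - c - t) ^ 2 ≤ 32 * η := by
  obtain ⟨hb, d, p, i, τ₁, τ₂, τ₃, e1, e2, e3, a1, a2, a3, a4, a5, a6, hcop, ⟨m1, hm1⟩,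
    ⟨m2, hm2⟩⟩ := H
  have hB : (1024 : ℝ) ≤ b := by exact_mod_cast hb
  have hm1' : (p : ℝ) - d = b * m1 := by exact_mod_cast hm1
  have hm2' : (i : ℝ) - G = b * m2 := by exact_mod_cast hm2
  have hB0 : (0 : ℝ) < b := by linarith
  have hb0 : 0 < b := by omega
  have hb6 : 0 < b ^ 6 := by positivity
  have hB6 : (0 : ℝ) < b ^ 6 := by positivity
  have hτ0 : 0 < τ₁ := lt_of_lt_of_le (by positivity) a1
  obtain ⟨u, v, huv⟩ := hcop.pow_left (m := 6)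
  obtain ⟨r, hr⟩ : ∃ r, r = (v * i) % b ^ 6 := ⟨_, rfl⟩
  have r0 : 0 ≤ r := hr ▸ Int.emod_nonneg _ hb6.ne'
  have r1 : r < b ^ 6 := hr ▸ Int.emod_lt_of_pos _ hb6
  obtain ⟨D, hD⟩ : ∃ D, D = x - G / b := ⟨_, rfl⟩
  rw [← hD] at h0 h1
  obtain ⟨j, hj⟩ : ∃ j, j = ⌊D / (b ^ 6 * τ₁)⌋ + 1 := ⟨_, rfl⟩
  have hden : 0 < (b : ℝ) ^ 6 * τ₁ := by positivity
  have j1 : D / (b ^ 6 * τ₁) < j := by rw [hj]; push_cast; exact Int.lt_floor_add_one _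
  have j2 : (j : ℝ) ≤ D / (b ^ 6 * τ₁) + 1 := by
    rw [hj]; push_cast; linarith [Int.floor_le (D / (b ^ 6 * τ₁))]
  have j0 : 1 ≤ j := by
    have : 0 ≤ ⌊D / (b ^ 6 * τ₁)⌋ := Int.floor_nonneg.2 (by positivity)
    omega
  obtain ⟨q, hq⟩ : ∃ q, q = r + j * b ^ 6 := ⟨_, rfl⟩
  have hq' : (q : ℝ) = r + j * b ^ 6 := by rw [hq]; push_cast; ring
  obtain ⟨t, ht⟩ : ∃ t, q * p - i = b ^ 6 * t := by
    refine ⟨j * p - u * i - (v * i / b ^ 6) * p, ?_⟩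
    have := Int.emod_add_mul_ediv (v * i) (b ^ 6)
    rw [← hr] at this
    rw [hq]
    linear_combination p * this + i * huv
  have ht' : (q : ℝ) * p - i = b ^ 6 * t := by exact_mod_cast ht
  have r0' : (0 : ℝ) ≤ r := by exact_mod_cast r0
  have r1' : (r : ℝ) < b ^ 6 := by exact_mod_cast r1
  have hs : (b : ℝ) ^ 6 * τ₁ ≤ 2 / b ^ 6 := by
    calc (b : ℝ) ^ 6 * τ₁ ≤ b ^ 6 * (2 / b ^ 12) := by gcongr
      _ = 2 / (b : ℝ) ^ 6 := by field_simp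
  rw [div_lt_iff₀ hden] at j1
  have j3 : (j : ℝ) * (b ^ 6 * τ₁) ≤ D + b ^ 6 * τ₁ := by
    have := mul_le_mul_of_nonneg_right j2 hden.le
    rwa [add_mul, div_mul_cancel₀ _ hden.ne', one_mul] at this
  have y1 : 0 ≤ (q : ℝ) * τ₁ - D := by rw [hq']; nlinarith
  have y2 : (q : ℝ) * τ₁ - D ≤ 4 / b ^ 6 := by
    have : (r : ℝ) * τ₁ ≤ b ^ 6 * τ₁ := by gcongr
    have e : (4 : ℝ) / b ^ 6 = 2 / b ^ 6 + 2 / b ^ 6 := by ring
    rw [hq', e]; nlinarith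
  have hb16 : (b : ℝ) ≤ b ^ 6 := le_self_pow₀ (by linarith) (by norm_num)
  have y3 : 4 / (b : ℝ) ^ 6 ≤ η := le_trans (by gcongr) hbη
  have q0 : b ≤ q := by
    have : b ≤ b ^ 6 := le_self_pow₀ (by omega) (by norm_num)
    nlinarith
  have q0' : (0 : ℝ) ≤ q := by
    have : (b : ℝ) ≤ q := by exact_mod_cast q0
    linarith
  have y4 : (q : ℝ) ≤ 2 * η * b ^ 12 := by
    have : (q : ℝ) * (1 / b ^ 12) ≤ 2 * η := by
      have : (q : ℝ) * (1 / b ^ 12) ≤ q * τ₁ := by gcongr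
      linarith
    rwa [mul_one_div, div_le_iff₀ (by positivity)] at this
  have fin : ∀ y : ℝ, |y| ≤ 4 / b ^ 6 → (q : ℝ) * y ^ 2 ≤ 32 * η := by
    intro y hy
    have : y ^ 2 ≤ (4 / b ^ 6) ^ 2 := by
      rw [← sq_abs]; exact pow_le_pow_left₀ (abs_nonneg _) hy 2
    have hη0 : 0 ≤ η := le_trans (by positivity) hbη
    calc (q : ℝ) * y ^ 2 ≤ 2 * η * b ^ 12 * (4 / b ^ 6) ^ 2 := by gcongr
      _ = 32 * η := by field_simp; ring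
  refine ⟨q, m2 + t * b ^ 5 - q * m1, t, q0, fin _ ?_, fin _ ?_⟩
  · have : (q : ℝ) * θ₁ - x - ((m2 + t * b ^ 5 - q * m1 : ℤ) : ℝ) = q * τ₁ - D := by
      have hd' : (d : ℝ) = p - b * m1 := by linarith
      have hG : (G : ℝ) = i - b * m2 := by linarith
      have hi : (i : ℝ) = q * p - b ^ 6 * t := by linarith
      rw [e1, hD, hd', hG, hi]; push_cast; field_simp; ring
    rw [this, abs_of_nonneg y1]; exact y2
  · have hq48 : |(q : ℝ)| ≤ b ^ 48 := by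
      rw [abs_of_nonneg q0']
      calc (q : ℝ) ≤ 2 * η * b ^ 12 := y4
        _ ≤ (b : ℝ) * (b : ℝ) ^ 12 := by gcongr; linarith
        _ = (b : ℝ) ^ 13 := by ring
        _ ≤ (b : ℝ) ^ 48 := pow_le_pow_right₀ (by linarith) (by norm_num)
    have hd := drift hB hq48 a3 a4 a5 a6
    have : (q : ℝ) * θ₂ - c - t = (q * τ₂ - τ₃) - 1 / (2 * b ^ 6) := by
      have hi : (i : ℝ) = q * p - b ^ 6 * t := by linarith
      rw [e2, e3, hi]; field_simp; ring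
    rw [this]
    refine (abs_sub _ _).trans ?_
    rw [abs_of_pos (by positivity : (0 : ℝ) < 1 / (2 * b ^ 6))]
    have : (1 : ℝ) / (4 * b ^ 6) + 1 / (2 * b ^ 6) ≤ 4 / b ^ 6 := by
      rw [div_add_div _ _ (by positivity) (by positivity), div_le_div_iff₀ (by positivity) hB6]
      nlinarith [mul_pos hB6 hB6]
    linarith

theorem nons {θ₁ θ₂ c : ℝ} {b G : ℤ} (H : Lev θ₁ θ₂ c b G) (q s t : ℤ) (hq0 : q ≠ 0)
    (hq : |(q : ℝ)| ≤ b ^ 12 / 4) :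
    1 / (2 * (b : ℝ) ^ 6) ≤ |q * θ₁ - s| ∨ 1 / (2 * (b : ℝ) ^ 6) ≤ |q * θ₂ - t| := by
  obtain ⟨hb, d, p, i, τ₁, τ₂, τ₃, e1, e2, e3, a1, a2, a3, a4, a5, a6, hcop, -, -⟩ := H
  have hB : (1024 : ℝ) ≤ b := by exact_mod_cast hb
  have hB0 : (0 : ℝ) < b := by linarith
  have hB6 : (0 : ℝ) < b ^ 6 := by positivity
  have hB61 : (1 : ℝ) ≤ b ^ 6 := one_le_pow₀ (by linarith)
  have hτ0 : 0 < τ₁ := lt_of_lt_of_le (by positivity) a1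
  have hh : 1 / (2 * (b : ℝ) ^ 6) ≤ 1 / 2 := by
    apply one_div_le_one_div_of_le <;> linarith
  by_cases hdv : b ^ 6 ∣ q
  · left
    obtain ⟨j, rfl⟩ := hdv
    have hj : j ≠ 0 := by rintro rfl; simp at hq0
    have hj1 : (1 : ℝ) ≤ |(j : ℝ)| := by exact_mod_cast Int.one_le_abs hj
    obtain ⟨u, hu⟩ : ∃ u : ℤ, u = s - j * b ^ 5 * d := ⟨_, rfl⟩
    have e : ((b ^ 6 * j : ℤ) : ℝ) * θ₁ - s = ((b ^ 6 * j : ℤ) : ℝ) * τ₁ - u := by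
      rw [e1, hu]; push_cast; field_simp; ring
    rw [e]
    have c1 : |((b ^ 6 * j : ℤ) : ℝ) * τ₁| ≤ 1 / 2 := by
      rw [abs_mul, abs_of_pos hτ0]
      calc _ ≤ (b : ℝ) ^ 12 / 4 * (2 / b ^ 12) := by gcongr
        _ = 1 / 2 := by field_simp; norm_num
    by_cases hu0 : u = 0
    · rw [hu0, Int.cast_zero, sub_zero, abs_mul, abs_of_pos hτ0]
      push_cast
      rw [abs_mul, abs_of_pos hB6]
      calc 1 / (2 * (b : ℝ) ^ 6) ≤ 1 / (b : ℝ) ^ 6 := by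
            apply one_div_le_one_div_of_le <;> linarith
        _ = (b : ℝ) ^ 6 * 1 * (1 / (b : ℝ) ^ 12) := by field_simp
        _ ≤ (b : ℝ) ^ 6 * |(j : ℝ)| * τ₁ := by gcongr
    · have hu1 : (1 : ℝ) ≤ |(u : ℝ)| := by exact_mod_cast Int.one_le_abs hu0
      have := abs_sub_abs_le_abs_sub (u : ℝ) (((b ^ 6 * j : ℤ) : ℝ) * τ₁)
      rw [abs_sub_comm] at this
      linarith
  · right
    have hne : q * p - t * b ^ 6 ≠ 0 := by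
      intro h
      apply hdv
      exact (hcop.pow_left (m := 6)).dvd_of_dvd_mul_right ⟨t, by linarith⟩
    have hu1 : (1 : ℝ) ≤ |((q * p - t * b ^ 6 : ℤ) : ℝ)| := by exact_mod_cast Int.one_le_abs hne
    have hq48 : |(q : ℝ)| ≤ b ^ 48 := by
      have : (b : ℝ) ^ 12 ≤ b ^ 48 := pow_le_pow_right₀ (by linarith) (by norm_num)
      have : (0 : ℝ) < b ^ 12 := by positivity
      linarith
    have hd := drift hB hq48 a3 a4 le_rfl (by positivity)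
    have e : ((q * p - t * b ^ 6 : ℤ) : ℝ) / b ^ 6 = (q * θ₂ - t) - (q * τ₂ - 0) := by
      rw [e2]; push_cast; field_simp; ring
    have c1 : 1 / (b : ℝ) ^ 6 ≤ |(q * θ₂ - t) - (q * τ₂ - 0)| := by
      rw [← e, abs_div, abs_of_pos hB6]; gcongr
    have c2 := abs_sub (q * θ₂ - t) (q * τ₂ - 0)
    have : 1 / (2 * (b : ℝ) ^ 6) + 1 / (4 * b ^ 6) ≤ 1 / b ^ 6 := by
      rw [div_add_div _ _ (by positivity) (by positivity), div_le_div_iff₀ (by positivity) hB6]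
      nlinarith [mul_pos hB6 hB6]
    linarith

end Pool.Agent.H.MP_ad5f6c_nt
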