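import Mathlib
import Pool.Agent.H.MP_ad5f6c_nt.A

open Filter Topology MeasureTheory

namespace Pool.Agent.H.MP_ad5f6c_nt

theorem lim_ex (r e : ℕ → ℝ) (h1 : ∀ k, r k ≤ r (k + 1)) (h2 : ∀ k, r (k + 1) ≤ r k + e k)
    (h3 : ∀ k, 2 * e (k + 1) ≤ e k) (h4 : ∀ k, 0 ≤ e k) :
    ∃ θ, ∀ k, r k ≤ θ ∧ θ ≤ r k + 2 * e k := by
  have hm : Monotone r := monotone_nat_of_le_succ h1
  have ha : Antitone fun k => r k + 2 * e k :=
    antitone_nat_of_succ_le fun k => by linarith [h2 k, h3 k]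
  have hb : ∀ j k, r j ≤ r k + 2 * e k := by
    intro j k
    have a1 := hm (le_max_left j k)
    have a2 := ha (le_max_right j k)
    have := h4 (max j k)
    simp only at a2
    linarith
  exact ⟨⨆ j, r j, fun k => ⟨le_ciSup ⟨_, by rintro _ ⟨j, rfl⟩; exact hb j 0⟩ k,
    ciSup_le fun j => hb j k⟩⟩

def bb : ℕ → ℤ
  | 0 => 1024
  | k + 1 => bb k ^ 12

def dd : ℕ → ℤ
  | 0 => 1
  | k + 1 => dd k * bb k ^ 11 + 1

def pn : ℕ → ℤ
  | 0 => 1
  | k + 1 => pn k * bb k ^ 66 + dd (k + 1)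

def hh (g : ℕ → ℤ) : ℕ → ℤ
  | 0 => 2 * g 0 + 1
  | k + 1 => hh g k * bb k ^ 66 + (2 * g (k + 1) + 1)

theorem bb_ge (k : ℕ) : 1024 * 2 ^ k ≤ bb k := by
  induction k with
  | zero => simp [bb]
  | succ k ih =>
    have h1 : (1 : ℤ) ≤ 2 ^ k := one_le_pow₀ (by norm_num)
    have h2 : 2 ≤ bb k := by linarith
    have h3 : bb k ^ 2 ≤ bb k ^ 12 := pow_le_pow_right₀ (by linarith) (by norm_num)
    rw [bb, pow_succ]
    nlinarith

theorem bb_ge' (k : ℕ) : 1024 ≤ bb k := by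
  have h1 : (1 : ℤ) ≤ 2 ^ k := one_le_pow₀ (by norm_num)
  linarith [bb_ge k]

theorem bb_gt (k : ℕ) : (k : ℝ) < bb k := by
  have h1 : k < 2 ^ k := Nat.lt_two_pow_self
  have h2 : (k : ℤ) < 2 ^ k := by exact_mod_cast h1
  have h3 : (k : ℤ) < bb k := by linarith [bb_ge k]
  exact_mod_cast h3

theorem bb_even (k : ℕ) : 2 ∣ bb k := by
  induction k with
  | zero => simp [bb]
  | succ k ih => exact ih.trans (dvd_pow_self _ (by norm_num))

theorem dd_bd (k : ℕ) : 0 ≤ dd k ∧ dd k < bb k := by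
  induction k with
  | zero => simp [bb, dd]
  | succ k ih =>
    have h1 := bb_ge' k
    have h2 : 1024 ≤ bb k ^ 11 := h1.trans (le_self_pow₀ (by linarith) (by norm_num))
    rw [bb, dd]
    have : bb k ^ 12 = bb k * bb k ^ 11 := by ring
    constructor <;> nlinarith [ih.1, ih.2]

theorem ehalf (m : ℕ) (hm : 0 < m) (k : ℕ) :
    2 * (1 / (bb (k + 1) : ℝ) ^ m) ≤ 1 / (bb k : ℝ) ^ m := by
  have hB : (1024 : ℝ) ≤ bb k := by exact_mod_cast bb_ge' k
  rw [bb]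
  push_cast
  rw [← pow_mul, mul_one_div, div_le_div_iff₀ (by positivity) (by positivity), one_mul]
  calc 2 * (bb k : ℝ) ^ m ≤ bb k * (bb k : ℝ) ^ m := by gcongr; linarith
    _ = (bb k : ℝ) ^ (m + 1) := by ring
    _ ≤ _ := pow_le_pow_right₀ (by linarith) (by omega)

theorem levels (g : ℕ → ℤ) (hg : ∀ k, 0 ≤ g k ∧ g k < bb k) :
    ∃ θ₁ θ₂ c : ℝ, ∀ k, Lev θ₁ θ₂ c (bb k) (g k) := by
  have hB : ∀ k, (1024 : ℝ) ≤ bb k := fun k => by exact_mod_cast bb_ge' k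
  have hB0 : ∀ k, (0 : ℝ) < bb k := fun k => by linarith [hB k]
  have s1 : ∀ k, (dd (k + 1) : ℝ) / bb (k + 1) = dd k / bb k + 1 / (bb k : ℝ) ^ 12 := by
    intro k
    have := (hB0 k).ne'
    rw [bb, dd]; push_cast; field_simp
  have s2 : ∀ k, (pn (k + 1) : ℝ) / bb (k + 1) ^ 6
      = pn k / bb k ^ 6 + dd (k + 1) / (bb k : ℝ) ^ 72 := by
    intro k
    have := (hB0 k).ne'
    rw [bb, pn]; push_cast; field_simp
  have s3 : ∀ k, (hh g (k + 1) : ℝ) / 2 / bb (k + 1) ^ 6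
      = hh g k / 2 / bb k ^ 6 + (g (k + 1) + 1 / 2) / (bb k : ℝ) ^ 72 := by
    intro k
    have := (hB0 k).ne'
    rw [bb, hh]; push_cast; field_simp
  have s4 : ∀ k (y : ℝ), y ≤ bb (k + 1) → y / (bb k : ℝ) ^ 72 ≤ 1 / (bb k : ℝ) ^ 60 := by
    intro k y hy
    have := hB0 k
    rw [bb] at hy
    push_cast at hy
    calc y / (bb k : ℝ) ^ 72 ≤ (bb k : ℝ) ^ 12 / (bb k : ℝ) ^ 72 := by gcongr
      _ = 1 / (bb k : ℝ) ^ 60 := by field_simp
  obtain ⟨θ₁, h1⟩ := lim_ex (fun k => (dd k : ℝ) / bb k) (fun k => 1 / (bb k : ℝ) ^ 12)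
    (fun k => by
      have := hB0 k
      simp only [s1 k]; exact le_add_of_nonneg_right (by positivity))
    (fun k => (s1 k).le) (ehalf 12 (by norm_num)) (fun k => by have := hB0 k; positivity)
  obtain ⟨θ₂, h2⟩ := lim_ex (fun k => (pn k : ℝ) / bb k ^ 6) (fun k => 1 / (bb k : ℝ) ^ 60)
    (fun k => by
      have := hB0 k
      have : (0 : ℝ) ≤ dd (k + 1) := by exact_mod_cast (dd_bd (k + 1)).1
      simp only [s2 k]; exact le_add_of_nonneg_right (by positivity))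
    (fun k => by
      have : (dd (k + 1) : ℝ) ≤ bb (k + 1) := by exact_mod_cast (dd_bd (k + 1)).2.le
      have := s4 k _ this
      simp only [s2 k]; linarith)
    (ehalf 60 (by norm_num)) (fun k => by have := hB0 k; positivity)
  obtain ⟨c, h3⟩ := lim_ex (fun k => (hh g k : ℝ) / 2 / bb k ^ 6) (fun k => 1 / (bb k : ℝ) ^ 60)
    (fun k => by
      have := hB0 k
      have : (0 : ℝ) ≤ g (k + 1) := by exact_mod_cast (hg (k + 1)).1
      simp only [s3 k]; exact le_add_of_nonneg_right (by positivity))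
    (fun k => by
      have : (g (k + 1) : ℝ) + 1 ≤ bb (k + 1) := by exact_mod_cast (hg (k + 1)).2
      have := s4 k ((g (k + 1) : ℝ) + 1 / 2) (by linarith)
      simp only [s3 k]; linarith)
    (ehalf 60 (by norm_num)) (fun k => by have := hB0 k; positivity)
  refine ⟨θ₁, θ₂, c, fun k => ⟨bb_ge' k, ?_⟩⟩
  have hi : ∃ i : ℤ, hh g k = 2 * i + 1 ∧ bb k ∣ i - g k := by
    cases k with
    | zero => exact ⟨g 0, rfl, by simp⟩
    | succ k =>
      obtain ⟨a, ha⟩ := bb_even k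
      refine ⟨hh g k * bb k ^ 65 * a + g (k + 1), ?_, ⟨hh g k * bb k ^ 53 * a, ?_⟩⟩
      · rw [hh]; linear_combination (hh g k * bb k ^ 65) * ha
      · rw [bb]; ring
  obtain ⟨i, hi1, hi2⟩ := hi
  have hi' : (hh g k : ℝ) / 2 = i + 1 / 2 := by rw [hi1]; push_cast; ring
  have t1 := h1 k
  have t1' := (h1 (k + 1)).1
  have t2 := h2 k
  have t3 := h3 k
  simp only [s1 k] at t1'
  simp only [hi', mul_one_div] at t1 t2 t3
  refine ⟨dd k, pn k, i, θ₁ - dd k / bb k, θ₂ - pn k / bb k ^ 6, c - (i + 1 / 2) / bb k ^ 6,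
    by ring, by ring, by ring, by linarith, by linarith [t1.2], by linarith [t2.1],
    by linarith [t2.2], by linarith [t3.1], by linarith [t3.2], ?_, ?_, hi2⟩
  · cases k with
    | zero => exact isCoprime_one_right
    | succ k =>
      rw [bb]
      refine IsCoprime.pow_left ⟨-(pn k * bb k ^ 65 + dd k * bb k ^ 10), 1, ?_⟩
      rw [pn, dd]; ring
  · cases k with
    | zero => simp [pn, dd]
    | succ k => exact ⟨pn k * bb k ^ 54, by rw [pn, bb]; ring⟩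

theorem digits : ∃ g : ℕ → ℤ, (∀ k, 0 ≤ g k ∧ (g k : ℝ) / bb k ≤ 1 / 4) ∧
    ∀ x ∈ Set.Ioo (0 : ℝ) (1 / 4), ∀ η : ℝ, 0 < η → ∀ K : ℕ, ∃ k, K ≤ k ∧
      0 ≤ x - g k / bb k ∧ x - g k / bb k ≤ η := by
  obtain ⟨f, hf⟩ := exists_surjective_nat ℚ
  have hB0 : ∀ k, (0 : ℝ) < bb k := fun k => lt_of_le_of_lt (Nat.cast_nonneg k) (bb_gt k)
  refine ⟨fun k => ⌊(bb k : ℝ) * max 0 (min (1 / 4) (f (Nat.unpair k).1 : ℝ))⌋, ?_, ?_⟩
  · intro k
    have := hB0 k
    refine ⟨Int.floor_nonneg.2 (by positivity), ?_⟩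
    rw [div_le_iff₀ this]
    refine (Int.floor_le _).trans ?_
    have : max 0 (min (1 / 4) (f (Nat.unpair k).1 : ℝ)) ≤ 1 / 4 :=
      max_le (by norm_num) (min_le_left _ _)
    nlinarith
  · intro x hx η hη K
    obtain ⟨ρ, h1, h2⟩ := exists_rat_btwn (max_lt hx.1 (by linarith : x - η / 2 < x))
    obtain ⟨n, rfl⟩ := hf ρ
    obtain ⟨M, hM⟩ := exists_nat_gt (2 / η)
    refine ⟨Nat.pair n (K + M), le_trans (by omega) (Nat.right_le_pair _ _), ?_⟩
    have hk : M ≤ Nat.pair n (K + M) := le_trans (by omega) (Nat.right_le_pair _ _)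
    have hk' : (M : ℝ) ≤ Nat.pair n (K + M) := by exact_mod_cast hk
    have hb := bb_gt (Nat.pair n (K + M))
    have hb0 := hB0 (Nat.pair n (K + M))
    simp only [Nat.unpair_pair]
    rw [min_eq_right (by linarith [hx.2]), max_eq_right (by linarith [le_max_left 0 (x - η / 2)])]
    generalize (bb (Nat.pair n (K + M)) : ℝ) = B at *
    have a1 := Int.floor_le (B * f n)
    have a2 := Int.lt_floor_add_one (B * f n)
    have a3 : (⌊B * f n⌋ : ℝ) / B ≤ f n := by rw [div_le_iff₀ hb0]; linarith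
    have a4 : 2 < B * η := by
      have : 2 / η < B := by linarith
      rwa [div_lt_iff₀ hη] at this
    have a5 : (f n : ℝ) - η / 2 ≤ (⌊B * f n⌋ : ℝ) / B := by rw [le_div_iff₀ hb0]; nlinarith
    constructor <;> linarith [le_max_right 0 (x - η / 2)]

def Bad (θ₁ θ₂ x y : ℝ) : Prop :=
  ∃ ε : ℝ, 0 < ε ∧ ∃ Q : ℕ, ∀ q : ℤ, (Q : ℤ) ≤ |q| →
    ε ≤ √|(q : ℝ)| * max |q * θ₁ - x - round (q * θ₁ - x)| |q * θ₂ - y - round (q * θ₂ - y)|

def Sing (θ₁ θ₂ : ℝ) : Prop :=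
  ∀ ε : ℝ, 0 < ε → ∃ N₀ : ℕ, ∀ N : ℕ, N₀ ≤ N → ∃ q : ℤ, 0 < |q| ∧ |q| ≤ N ∧
    max |q * θ₁ - round (q * θ₁)| |q * θ₂ - round (q * θ₂)| ≤ ε / √(N : ℝ)

theorem meas (θ₁ θ₂ y : ℝ) : MeasurableSet {x | Bad θ₁ θ₂ x y} := by
  have : {x | Bad θ₁ θ₂ x y} = ⋃ n : ℕ, ⋃ Q : ℕ, ⋂ q : ℤ, ⋂ _ : (Q : ℤ) ≤ |q|,
      {x | 1 / ((n : ℝ) + 1) ≤ √|(q : ℝ)| *
        max |q * θ₁ - x - round (q * θ₁ - x)| |q * θ₂ - y - round (q * θ₂ - y)|} := by
    ext x
    simp only [Set.mem_iUnion, Set.mem_iInter, Set.mem_ofPred_eq]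
    constructor
    · rintro ⟨ε, hε, Q, h⟩
      obtain ⟨n, hn⟩ := exists_nat_one_div_lt hε
      exact ⟨n, Q, fun q hq => hn.le.trans (h q hq)⟩
    · rintro ⟨n, Q, h⟩
      exact ⟨_, by positivity, Q, h⟩
  rw [this]
  refine MeasurableSet.iUnion fun n => MeasurableSet.iUnion fun Q => MeasurableSet.iInter fun q =>
    MeasurableSet.iInter fun _ => measurableSet_le measurable_const ?_
  have hr : Measurable fun x : ℝ => ((round (q * θ₁ - x) : ℤ) : ℝ) := by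
    simp only [round_eq]
    exact (measurable_from_top (f := fun z : ℤ => (z : ℝ))).comp
      (Int.measurable_floor.comp (by fun_prop))
  exact measurable_const.mul (Measurable.max
    (((measurable_const.sub measurable_id).sub hr).abs) measurable_const)

theorem main : ∃ θ₁ θ₂ c : ℝ, ¬ Sing θ₁ θ₂ ∧
    0 < volume ({x | Bad θ₁ θ₂ x c} ∩ Set.Ico (0 : ℝ) 1) ∧
    ∀ x ∈ Set.Ioo (0 : ℝ) (1 / 4), ¬ Bad θ₁ θ₂ x c := by
  obtain ⟨g, hg, hg2⟩ := digits
  have hB : ∀ k, (1024 : ℝ) ≤ bb k := fun k => by exact_mod_cast bb_ge' k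
  have hB0 : ∀ k, (0 : ℝ) < bb k := fun k => by linarith [hB k]
  obtain ⟨θ₁, θ₂, c, H⟩ := levels g fun k => ⟨(hg k).1, by
    have h1 := (hg k).2
    rw [div_le_iff₀ (hB0 k)] at h1
    have : (g k : ℝ) < bb k := by linarith [hB0 k]
    exact_mod_cast this⟩
  refine ⟨θ₁, θ₂, c, ?_, ?_, ?_⟩
  · intro hs
    obtain ⟨N₀, hN⟩ := hs (1 / 5) (by norm_num)
    obtain ⟨a, ha⟩ := bb_even N₀
    have hb := bb_ge' N₀
    have ha' : (bb N₀ : ℝ) = 2 * a := by exact_mod_cast ha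
    obtain ⟨M, hM⟩ := Int.eq_ofNat_of_zero_le
      (by have : 0 ≤ a := by omega
          positivity : 0 ≤ a * bb N₀ ^ 5)
    have hM' : (M : ℝ) = bb N₀ ^ 6 / 2 := by
      have : (a : ℝ) * bb N₀ ^ 5 = M := by exact_mod_cast hM
      rw [← this, ha']; ring
    have h6 : (bb N₀ : ℝ) ^ 2 ≤ bb N₀ ^ 6 := pow_le_pow_right₀ (by linarith [hB N₀]) (by norm_num)
    have hMN : N₀ ≤ M ^ 2 := by
      have h1 := bb_gt N₀
      have h2 : (N₀ : ℝ) ≤ M := by nlinarith [hB N₀]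
      have h3 : N₀ ≤ M := by exact_mod_cast h2
      nlinarith
    obtain ⟨q, hq0, hq1, hq2⟩ := hN (M ^ 2) hMN
    have hq1' : |(q : ℝ)| ≤ (M : ℝ) ^ 2 := by exact_mod_cast hq1
    have := nons (H N₀) q (round (q * θ₁)) (round (q * θ₂)) (abs_pos.1 hq0)
      (by rw [hM'] at hq1'; linarith [show ((bb N₀ : ℝ) ^ 6 / 2) ^ 2 = bb N₀ ^ 12 / 4 by ring])
    push_cast at hq2
    rw [Real.sqrt_sq (Nat.cast_nonneg M), hM', max_le_iff] at hq2
    have h7 : (0 : ℝ) < bb N₀ ^ 6 := by have := hB0 N₀; positivity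
    have h8 : 1 / 5 / ((bb N₀ : ℝ) ^ 6 / 2) < 1 / (2 * bb N₀ ^ 6) := by
      rw [div_lt_div_iff₀ (by positivity) (by positivity)]; linarith
    rcases this with h | h <;> linarith [hq2.1, hq2.2]
  · let E : ℕ → Set ℝ := fun k => ⋃ j ∈ Finset.Icc (0 : ℤ) (bb k),
      Metric.ball ((j : ℝ) / bb k) (6 / (bb k : ℝ) ^ 2)
    have hE : ∀ k, volume (E k) ≤ ENNReal.ofReal (1 / 40 * (1 / 2) ^ k) := by
      intro k
      refine (measure_biUnion_finset_le _ _).trans ?_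
      simp only [Real.volume_ball, Finset.sum_const, Int.card_Icc, nsmul_eq_mul]
      rw [← ENNReal.ofReal_natCast, ← ENNReal.ofReal_mul (Nat.cast_nonneg _)]
      apply ENNReal.ofReal_le_ofReal
      have h1 : (((bb k + 1 - 0).toNat : ℤ) : ℝ) = bb k + 1 := by
        rw [Int.toNat_of_nonneg (by linarith [bb_ge' k])]; push_cast; ring
      rw [Int.cast_natCast] at h1
      rw [h1]
      have h2 : (1024 : ℝ) * 2 ^ k ≤ bb k := by exact_mod_cast bb_ge k
      have h3 := hB k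
      have h4 : (0 : ℝ) < 2 ^ k := by positivity
      calc ((bb k : ℝ) + 1) * (2 * (6 / (bb k : ℝ) ^ 2))
          ≤ (2 * bb k) * (2 * (6 / (bb k : ℝ) ^ 2)) := by gcongr; linarith
        _ = 24 / (bb k : ℝ) := by field_simp; norm_num
        _ ≤ 24 / ((1024 : ℝ) * 2 ^ k) := by gcongr
        _ ≤ 1 / 40 * (1 / 2) ^ k := by
            rw [one_div_pow, div_mul_div_comm, div_le_div_iff₀ (by positivity) (by positivity)]
            nlinarith
    have hE2 : volume (⋃ k, E k) ≤ ENNReal.ofReal (1 / 20) := by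
      refine (measure_iUnion_le _).trans ((ENNReal.tsum_le_tsum hE).trans ?_)
      rw [← ENNReal.ofReal_tsum_of_nonneg (fun k => by positivity)
        (summable_geometric_two.mul_left _), tsum_mul_left, tsum_geometric_two]
      norm_num
    have hsub : Set.Icc (0.55 : ℝ) 0.7 ⊆
        ({x | Bad θ₁ θ₂ x c} ∩ Set.Ico (0 : ℝ) 1) ∪ ⋃ k, E k := by
      intro x hx
      by_cases hxE : x ∈ ⋃ k, E k
      · exact Or.inr hxE
      refine Or.inl ⟨⟨1 / 20, by norm_num, 1024 ^ 4, fun q hq => ?_⟩, by linarith [hx.1],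
        by linarith [hx.2]⟩
      by_contra hlt
      have hlt := not_le.1 hlt
      have hex : ∃ k, |(q : ℝ)| < (bb (k + 1) : ℝ) ^ 4 := by
        obtain ⟨n, hn⟩ := exists_nat_gt |(q : ℝ)|
        refine ⟨n, ?_⟩
        have h1 := bb_gt (n + 1)
        have h2 : (bb (n + 1) : ℝ) ≤ bb (n + 1) ^ 4 :=
          le_self_pow₀ (by linarith [hB (n + 1)]) (by norm_num)
        push_cast at h1
        linarith
      classical
      obtain ⟨k, hk⟩ : ∃ k, k = Nat.find hex := ⟨_, rfl⟩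
      have k1 : |(q : ℝ)| ≤ (bb k : ℝ) ^ 48 := by
        have := Nat.find_spec hex
        rw [← hk, bb] at this
        push_cast at this
        rw [← pow_mul] at this
        exact this.le
      have k2 : (bb k : ℝ) ^ 4 ≤ |(q : ℝ)| := by
        cases k with
        | zero =>
          have : ((1024 ^ 4 : ℕ) : ℝ) ≤ |(q : ℝ)| := by exact_mod_cast hq
          rw [bb]
          push_cast at this ⊢
          linarith
        | succ k => exact not_lt.1 (Nat.find_min hex (by omega))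
      obtain ⟨w, hw⟩ : ∃ w, w = max |q * θ₁ - x - round (q * θ₁ - x)|
        |q * θ₂ - c - round (q * θ₂ - c)| := ⟨_, rfl⟩
      rw [← hw] at hlt
      have w0 : 0 ≤ w := hw ▸ le_max_of_le_left (abs_nonneg _)
      have w1 : w ^ 2 * |(q : ℝ)| ≤ 1 / 400 := by
        have h1 := pow_le_pow_left₀ (by positivity) hlt.le 2
        rw [mul_pow, Real.sq_sqrt (abs_nonneg _)] at h1
        linarith
      rcases far (H k) q _ _ x w k2 k1 w0 w1 (hw ▸ le_max_left _ _) (hw ▸ le_max_right _ _)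
        with ⟨u, hu⟩ | ⟨u, hu⟩
      · have g1 := (hg k).2
        have g0 : (0 : ℝ) ≤ (g k : ℝ) / bb k :=
          div_nonneg (by exact_mod_cast (hg k).1) (hB0 k).le
        rw [abs_le] at hu
        have u1 : (0 : ℝ) < u := by linarith [hx.1, hu.2]
        have u2 : (u : ℝ) < 1 := by linarith [hx.2, hu.1]
        have u1 : 0 < u := by exact_mod_cast u1
        have u2 : u < 1 := by exact_mod_cast u2
        omega
      · apply hxE
        have h6 : 6 / (bb k : ℝ) ≤ 1 := by rw [div_le_one (hB0 k)]; linarith [hB k]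
        have hu' := abs_lt.1 hu
        have u1 : (0 : ℝ) ≤ u := by nlinarith [hx.1, hu'.2, hB k]
        have u2 : (u : ℝ) ≤ bb k := by nlinarith [hx.2, hu'.1, hB k]
        refine Set.mem_iUnion.2 ⟨k, Set.mem_iUnion₂.2 ⟨u, ?_, ?_⟩⟩
        · exact Finset.mem_Icc.2 ⟨by exact_mod_cast u1, by exact_mod_cast u2⟩
        · have := hB0 k
          rw [Metric.mem_ball, Real.dist_eq]
          have e : x - u / bb k = (bb k * x - u) / bb k := by field_simp
          rw [e, abs_div, abs_of_pos this, div_lt_iff₀ this]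
          have e2 : 6 / (bb k : ℝ) ^ 2 * bb k = 6 / bb k := by field_simp
          rwa [e2]
    by_contra h0
    have h0 := nonpos_iff_eq_zero.1 (not_lt.1 h0)
    have := (measure_mono (μ := volume) hsub).trans (measure_union_le _ _)
    rw [h0, zero_add, Real.volume_Icc] at this
    have := (ENNReal.ofReal_le_ofReal_iff (by norm_num)).1 (this.trans hE2)
    norm_num at this
  · rintro x hx ⟨ε, hε, Q, hQ⟩
    obtain ⟨η, hη⟩ : ∃ η, η = min 1 (ε ^ 2 / 64) := ⟨_, rfl⟩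
    have η0 : 0 < η := hη ▸ lt_min one_pos (by positivity)
    have η1 : η ≤ 1 := hη ▸ min_le_left _ _
    have η2 : η ≤ ε ^ 2 / 64 := hη ▸ min_le_right _ _
    obtain ⟨M, hM⟩ := exists_nat_gt (4 / η)
    obtain ⟨k, hk, d0, d1⟩ := hg2 x hx η η0 (Q + M)
    have hkb := bb_gt k
    have hk' : (Q : ℝ) + M ≤ k := by exact_mod_cast hk
    have hQ0 : (0 : ℝ) ≤ Q := Nat.cast_nonneg _
    have hM0 : (0 : ℝ) ≤ M := Nat.cast_nonneg _
    obtain ⟨q, s, t, q0, q1, q2⟩ := near (H k) x η d0 d1 η1 (by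
      rw [div_le_iff₀ (hB0 k)]
      rw [div_lt_iff₀ η0] at hM
      nlinarith)
    have q0' : (bb k : ℝ) ≤ q := by exact_mod_cast q0
    have q3 : (0 : ℝ) ≤ q := by linarith [hB k]
    have := hQ q (by
      have : (Q : ℝ) ≤ |(q : ℝ)| := by rw [abs_of_nonneg q3]; linarith
      exact_mod_cast this)
    rw [abs_of_nonneg q3] at this
    have fin : ∀ (y : ℝ) (z : ℤ), (q : ℝ) * (y - z) ^ 2 ≤ 32 * η → √(q : ℝ) * |y - round y| < ε := by
      intro y z hy
      have h1 : √(q : ℝ) * |y - round y| ≤ √(q : ℝ) * |y - z| :=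
        mul_le_mul_of_nonneg_left (round_le y z) (Real.sqrt_nonneg _)
      refine h1.trans_lt (lt_of_pow_lt_pow_left₀ 2 hε.le ?_)
      rw [mul_pow, Real.sq_sqrt q3, sq_abs]
      nlinarith
    rw [mul_max_of_nonneg _ _ (Real.sqrt_nonneg _)] at this
    exact absurd this (not_le.2 (max_lt (fin _ s q1) (fin _ t q2)))

end Pool.Agent.H.MP_ad5f6c_nt
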